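import Mathlib

/-!
# Products of Scott well-filtered dcpos are Scott well-filtered

Let `P i` (`i` in an arbitrary index set) be dcpos whose Scott topologies are well-filtered. Then
the Scott topology of the product dcpo `∏ i, P i` is well-filtered. In particular `Σ (P × Q)` is
well-filtered for all dcpos `P`, `Q` with `Σ P`, `Σ Q` well-filtered.

Proof. Suppose that `𝒦` is a filtered family of compact saturated sets in `Σ X`, `X` the product,
that `U` is open, `⋂ 𝒦 ⊆ U`, and that no member of `𝒦` is contained in `U`. By Zorn's lemma there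
is a minimal closed set `C` which is disjoint from `U` and meets all members of `𝒦`; then
`C = cl (K ∩ C)` for all `K ∈ 𝒦`. Fix a coordinate `i` with projection `p`. As `Σ P i` is
well-filtered and the sets `↑p (K ∩ C)` are compact and meet the closed set `cl p (C)`, there is a
point `a` in `cl p (C)` and in all `↑p (K ∩ C)`. The closed set of all `x ∈ C` with `p x ≤ a` meets
all `K`, so it is `C`. Claim: if `x ∈ C`, then `C` contains the point `r (x, a)` with the `i`-th
coordinate `a` and the other coordinates as for `x`. The set of these `x ∈ C` is closed, so if the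
claim is false then it is disjoint from some `K ∈ 𝒦`, that is, `r (x, a) ∉ C` for all
`x ∈ K ∩ C`. The set `N` of all `y ∈ P i` such that `r (x, y) ∉ C` for all `x ∈ K ∩ C` is Scott
open, because `K ∩ C` is compact in `Σ X` and it is covered by the directed family of the open sets
`{x | r (x, d) ∉ C}`, `d ∈ D`, whenever `D` is a directed set with supremum in `N`. As `a ∈ N` and
`a ∈ cl p (C) = cl p (K ∩ C)`, there is an `x ∈ K ∩ C` with `p x ∈ N`, and so `x = r (x, p x) ∉ C`,
a contradiction. By the claim and since `C` is closed under directed suprema, the point with all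
coordinates equal to the `a`'s is in `C`; it is above a point of `K ∩ C` for all `K ∈ 𝒦`, so it is in
`⋂ 𝒦 ⊆ U`, a contradiction.
-/

set_option autoImplicit false

open Set Topology

universe u v w

namespace Pool.Agent.Results.MP_70096d_gt.ScottProducts

/-- `P` is a dcpo: every (nonempty) directed subset has a least upper bound. -/
def IsDcpo (P : Type u) [PartialOrder P] : Prop :=
  ∀ D : Set P, D.Nonempty → DirectedOn (· ≤ ·) D → ∃ x : P, IsLUB D x

/-- `U` is Scott open: it is an upper set, and it meets every (nonempty) directed set whose least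
upper bound belongs to `U`. -/
def IsScottOpen {P : Type u} [PartialOrder P] (U : Set P) : Prop :=
  IsUpperSet U ∧ ∀ D : Set P, D.Nonempty → DirectedOn (· ≤ ·) D → ∀ x : P, IsLUB D x →
    x ∈ U → (D ∩ U).Nonempty

/-- The Scott topology. -/
@[instance_reducible]
def scott (P : Type u) [PartialOrder P] : TopologicalSpace P where
  IsOpen := IsScottOpen
  isOpen_univ := ⟨isUpperSet_univ, fun _ hD _ _ _ _ => by rwa [inter_univ]⟩
  isOpen_inter U V hU hV := by
    refine ⟨hU.1.inter hV.1, fun D hD hdir x hx hxUV => ?_⟩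
    obtain ⟨d, hd, hdU⟩ := hU.2 D hD hdir x hx hxUV.1
    obtain ⟨e, he, heV⟩ := hV.2 D hD hdir x hx hxUV.2
    obtain ⟨f, hf, hdf, hef⟩ := hdir d hd e he
    exact ⟨f, hf, hU.1 hdf hdU, hV.1 hef heV⟩
  isOpen_sUnion S hS := by
    refine ⟨isUpperSet_sUnion fun U hU => (hS U hU).1, fun D hD hdir x hx hxS => ?_⟩
    obtain ⟨U, hU, hxU⟩ := hxS
    obtain ⟨d, hd, hdU⟩ := (hS U hU).2 D hD hdir x hx hxU
    exact ⟨d, hd, U, hU, hdU⟩

/-- The set `K` is saturated for the topology `t`: it is an intersection of open sets. -/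
def IsSaturated {X : Type u} (t : TopologicalSpace X) (K : Set X) : Prop :=
  ∃ 𝒰 : Set (Set X), (∀ U ∈ 𝒰, IsOpen[t] U) ∧ K = ⋂₀ 𝒰

/-- The topology `t` on `X` is well-filtered: it is `T₀`, and for every filtered family `𝒦` of
compact saturated sets and every open set `U` with `⋂ 𝒦 ⊆ U` some member of `𝒦` is contained in
`U`. -/
def WellFiltered {X : Type u} (t : TopologicalSpace X) : Prop :=
  @T0Space X t ∧ ∀ 𝒦 : Set (Set X), 𝒦.Nonempty → DirectedOn (· ⊇ ·) 𝒦 →
    (∀ K ∈ 𝒦, @IsCompact X t K ∧ IsSaturated t K) →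
    ∀ U : Set X, IsOpen[t] U → ⋂₀ 𝒦 ⊆ U → ∃ K ∈ 𝒦, K ⊆ U

theorem dir_image {X : Type u} {Y : Type v} [PartialOrder X] [PartialOrder Y] {f : X → Y}
    (hf : Monotone f) {D : Set X} (hD : DirectedOn (· ≤ ·) D) : DirectedOn (· ≤ ·) (f '' D) := by
  rintro _ ⟨x, hx, rfl⟩ _ ⟨y, hy, rfl⟩
  obtain ⟨z, hz, hxz, hyz⟩ := hD x hx y hy
  exact ⟨f z, ⟨z, hz, rfl⟩, hf hxz, hf hyz⟩

section basics

variable {X : Type u} [PartialOrder X]

theorem isOpen_iff {U : Set X} : IsOpen[scott X] U ↔ IsScottOpen U := Iff.rfl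

/-- closed sets are lower sets closed under directed suprema -/
theorem isClosed_iff {C : Set X} : IsClosed[scott X] C ↔ IsLowerSet C ∧
    ∀ D : Set X, D.Nonempty → DirectedOn (· ≤ ·) D → ∀ x : X, IsLUB D x → D ⊆ C → x ∈ C := by
  rw [← @isOpen_compl_iff X C (scott X), isOpen_iff]
  constructor
  · rintro ⟨h1, h2⟩
    refine ⟨isUpperSet_compl.1 h1, fun D hD hdir x hx hDC => ?_⟩
    by_contra hxC
    obtain ⟨d, hd, hdC⟩ := h2 D hD hdir x hx hxC
    exact hdC (hDC hd)
  · rintro ⟨h1, h2⟩
    refine ⟨isUpperSet_compl.2 h1, fun D hD hdir x hx hxC => ?_⟩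
    by_contra hcon
    refine hxC (h2 D hD hdir x hx fun d hd => ?_)
    by_contra hdC
    exact hcon ⟨d, hd, hdC⟩

theorem isClosed_Iic (a : X) : IsClosed[scott X] (Iic a) :=
  isClosed_iff.2 ⟨isLowerSet_Iic a, fun _ _ _ _ hx hDC => hx.2 fun _ hd => hDC hd⟩

theorem t0 : @T0Space X (scott X) := by
  let _ := scott X
  refine ⟨fun x y h => ?_⟩
  have h1 : ∀ C : Set X, IsClosed C → (x ∈ C ↔ y ∈ C) := fun C hC => by
    have := (inseparable_iff_forall_isClosed.1 h) C hC
    exact this
  exact le_antisymm ((h1 _ (isClosed_Iic y)).2 (mem_Iic.2 le_rfl))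
    ((h1 _ (isClosed_Iic x)).1 (mem_Iic.2 le_rfl))

/-- upper sets are saturated -/
theorem saturated_of_upper {K : Set X} (hK : IsUpperSet K) : IsSaturated (scott X) K := by
  refine ⟨{U | ∃ y, y ∉ K ∧ U = (Iic y)ᶜ}, ?_, ?_⟩
  · rintro _ ⟨y, -, rfl⟩
    exact (@isOpen_compl_iff X _ (scott X)).2 (isClosed_Iic y)
  · ext z
    rw [mem_sInter]
    constructor
    · rintro hz _ ⟨y, hy, rfl⟩ hzy
      exact hy (hK hzy hz)
    · intro h
      by_contra hz
      exact h _ ⟨z, hz, rfl⟩ (mem_Iic.2 le_rfl)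

theorem upper_of_saturated {K : Set X} (hK : IsSaturated (scott X) K) : IsUpperSet K := by
  obtain ⟨𝒰, h𝒰, rfl⟩ := hK
  exact isUpperSet_sInter fun U hU => (h𝒰 U hU).1

end basics

/-- `C` is a closed set which meets all members of `𝒦` and is contained in all closed sets
`C' ⊆ C` with this property. -/
structure IsMin {X : Type u} [PartialOrder X] (𝒦 : Set (Set X)) (C : Set X) : Prop where
  closed : IsClosed[scott X] C
  meets : ∀ K ∈ 𝒦, (K ∩ C).Nonempty
  minimal : ∀ C' ⊆ C, IsClosed[scott X] C' → (∀ K ∈ 𝒦, (K ∩ C').Nonempty) → C ⊆ C'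

/-- minimal closed sets exist -/
theorem exists_min {X : Type u} [PartialOrder X] (𝒦 : Set (Set X))
    (hK : ∀ K ∈ 𝒦, @IsCompact X (scott X) K) (C₀ : Set X) (hC₀ : IsClosed[scott X] C₀)
    (hne : ∀ K ∈ 𝒦, (K ∩ C₀).Nonempty) : ∃ C ⊆ C₀, IsMin 𝒦 C := by
  let _ := scott X
  obtain ⟨C, hC1, hC2⟩ := zorn_superset_nonempty
    {C : Set X | IsClosed C ∧ ∀ K ∈ 𝒦, (K ∩ C).Nonempty}
    (by
      intro c hc hchain hcne
      refine ⟨⋂₀ c, ⟨isClosed_sInter fun s hs => (hc hs).1, ?_⟩,
        fun s hs => sInter_subset_of_mem hs⟩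
      intro K hKm
      by_contra hemp
      rw [not_nonempty_iff_eq_empty] at hemp
      have hcne' : Nonempty c := hcne.to_subtype
      have h1 : K ⊆ ⋃ s : c, (s.1)ᶜ := by
        intro x hx
        by_contra hcon
        have : x ∈ K ∩ ⋂₀ c := by
          refine ⟨hx, mem_sInter.2 fun s hs => ?_⟩
          by_contra hxs
          exact hcon (mem_iUnion.2 ⟨⟨s, hs⟩, hxs⟩)
        rw [hemp] at this
        exact this
      have hdir : Directed (· ⊆ ·) (fun s : c => (s.1)ᶜ) := by
        intro s t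
        rcases hchain.total s.2 t.2 with h | h
        · exact ⟨s, subset_rfl, compl_subset_compl.2 h⟩
        · exact ⟨t, compl_subset_compl.2 h, subset_rfl⟩
      obtain ⟨s, hs⟩ := (hK K hKm).elim_directed_cover _
        (fun s : c => (hc s.2).1.isOpen_compl) h1 hdir
      obtain ⟨x, hx, hxs⟩ := (hc s.2).2 K hKm
      exact hs hx hxs) C₀ ⟨hC₀, hne⟩
  refine ⟨C, hC1, hC2.1.1, hC2.1.2, ?_⟩
  intro C' hC' hcl hm
  exact hC2.2 ⟨hcl, hm⟩ hC'

/-- The map `f` preserves least upper bounds of directed sets. -/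
def PreservesSups {X : Type u} {Y : Type v} [PartialOrder X] [PartialOrder Y] (f : X → Y) : Prop :=
  ∀ D : Set X, D.Nonempty → DirectedOn (· ≤ ·) D → ∀ x : X, IsLUB D x → IsLUB (f '' D) (f x)

theorem PreservesSups.continuous {X : Type u} {Y : Type v} [PartialOrder X] [PartialOrder Y]
    {f : X → Y} (hm : Monotone f) (h : PreservesSups f) : Continuous[scott X, scott Y] f := by
  refine @Continuous.mk X Y (scott X) (scott Y) f fun U hU => ?_
  obtain ⟨h1, h2⟩ : IsScottOpen U := hU
  refine ⟨h1.preimage hm, fun D hD hdir x hx hxU => ?_⟩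
  obtain ⟨_, ⟨d, hd, rfl⟩, hdU⟩ := h2 (f '' D) (hD.image f) (dir_image hm hdir)
    (f x) (h D hD hdir x hx) hxU
  exact ⟨d, hd, hdU⟩

section core

variable {X : Type u} {P : Type v} [PartialOrder X] [PartialOrder P]

/-- The main lemma. Let `Σ P` be well-filtered, `p : X → P` a projection and `r : X → P → X` the
replacement of a coordinate. If `C` is a minimal closed set meeting all members of `𝒦`, then there
is an upper bound `a` of `p (C)` such that `r x a ∈ C` for all `x ∈ C`. -/
theorem replace (hP : WellFiltered (scott P)) {p : X → P} (hpm : Monotone p)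
    (hps : PreservesSups p) {r : X → P → X} (hr : ∀ x, r x (p x) = x)
    (hr1 : ∀ y, Monotone fun x => r x y) (hr1s : ∀ y, PreservesSups fun x => r x y)
    (hr2 : ∀ x, Monotone (r x)) (hr2s : ∀ x, PreservesSups (r x))
    {𝒦 : Set (Set X)} (hne : 𝒦.Nonempty) (hdir : DirectedOn (· ⊇ ·) 𝒦)
    (hK : ∀ K ∈ 𝒦, @IsCompact X (scott X) K) {C : Set X} (hC : IsMin 𝒦 C) :
    ∃ a : P, (∀ x ∈ C, p x ≤ a) ∧ ∀ x ∈ C, r x a ∈ C := by
  let tX := scott X
  let tP := scott P
  have hpc : Continuous p := PreservesSups.continuous hpm hps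
  have hC1 : IsClosed C := hC.closed
  have hCl := (isClosed_iff.1 hC1).1
  have hKC : ∀ K ∈ 𝒦, IsCompact (K ∩ C) := fun K h => (hK K h).inter_right hC1
  -- `C` is the closure of `K ∩ C`
  have hcl : ∀ K ∈ 𝒦, C ⊆ closure (K ∩ C) := by
    intro K hKm
    refine hC.minimal _ (closure_minimal inter_subset_right hC1) isClosed_closure ?_
    intro K' hK'
    obtain ⟨K'', hK'', h1, h2⟩ := hdir K hKm K' hK'
    obtain ⟨x, hx, hxC⟩ := hC.meets K'' hK''
    exact ⟨x, h2 hx, subset_closure ⟨h1 hx, hxC⟩⟩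
  -- the point `a`
  obtain ⟨a, haH, haE⟩ : ∃ a : P, (∀ K ∈ 𝒦, ∃ x ∈ K ∩ C, p x ≤ a) ∧ a ∈ closure (p '' C) := by
    by_contra hcon
    push Not at hcon
    have hsat : ∀ K : Set X, IsUpperSet {y : P | ∃ x ∈ K ∩ C, p x ≤ y} := by
      rintro K y y' hyy' ⟨x, hx, hxy⟩
      exact ⟨x, hx, hxy.trans hyy'⟩
    obtain ⟨_, ⟨K, hKm, rfl⟩, hKE⟩ := hP.2
      ((fun K => {y : P | ∃ x ∈ K ∩ C, p x ≤ y}) '' 𝒦) (hne.image _)
      (by
        rintro _ ⟨K, hKm, rfl⟩ _ ⟨K', hKm', rfl⟩
        obtain ⟨K'', hK'', h1, h2⟩ := hdir K hKm K' hKm'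
        refine ⟨_, ⟨K'', hK'', rfl⟩, ?_, ?_⟩
        · rintro y ⟨x, hx, hxy⟩
          exact ⟨x, ⟨h1 hx.1, hx.2⟩, hxy⟩
        · rintro y ⟨x, hx, hxy⟩
          exact ⟨x, ⟨h2 hx.1, hx.2⟩, hxy⟩)
      (by
        rintro _ ⟨K, hKm, rfl⟩
        refine ⟨?_, saturated_of_upper (hsat K)⟩
        refine isCompact_of_finite_subcover fun {κ} U hU hcov => ?_
        obtain ⟨t, ht⟩ := ((hKC K hKm).image hpc).elim_finite_subcover U hU (by
          rintro _ ⟨x, hx, rfl⟩
          exact hcov ⟨x, hx, le_rfl⟩)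
        refine ⟨t, ?_⟩
        rintro y ⟨x, hx, hxy⟩
        have h3 := ht ⟨x, hx, rfl⟩
        rw [mem_iUnion₂] at h3 ⊢
        obtain ⟨k, hk, hak⟩ := h3
        have hUk : IsScottOpen (U k) := hU k
        exact ⟨k, hk, hUk.1 hxy hak⟩)
      (closure (p '' C))ᶜ (isClosed_closure.isOpen_compl) (by
        intro y hy hyE
        refine hcon y (fun K hKm => ?_) hyE
        exact hy _ ⟨K, hKm, rfl⟩)
    obtain ⟨x, hx⟩ := hC.meets K hKm
    exact hKE ⟨x, hx, le_rfl⟩ (subset_closure ⟨x, hx.2, rfl⟩)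
  -- `a` is an upper bound
  have hub : ∀ x ∈ C, p x ≤ a := by
    have h1 : C ⊆ C ∩ p ⁻¹' (Iic a) := by
      refine hC.minimal _ inter_subset_left (hC1.inter ((isClosed_Iic a).preimage hpc)) ?_
      intro K hKm
      obtain ⟨x, hx, hxa⟩ := haH K hKm
      exact ⟨x, hx.1, hx.2, hxa⟩
    exact fun x hx => (h1 hx).2
  refine ⟨a, hub, ?_⟩
  have hrc : ∀ y, Continuous fun x => r x y := fun y =>
    PreservesSups.continuous (hr1 y) (hr1s y)
  suffices h : C ⊆ C ∩ (fun x => r x a) ⁻¹' C from fun x hx => (h hx).2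
  refine hC.minimal _ inter_subset_left (hC1.inter (hC1.preimage (hrc a))) ?_
  by_contra hcon
  push Not at hcon
  obtain ⟨K, hKm, hKe⟩ := hcon
  have hout : ∀ x ∈ K ∩ C, r x a ∉ C := by
    intro x hx hxa
    have : x ∈ K ∩ (C ∩ (fun x => r x a) ⁻¹' C) := ⟨hx.1, hx.2, hxa⟩
    rw [hKe] at this
    exact this
  -- the open set `N`
  have hN : IsOpen {y : P | ∀ x ∈ K ∩ C, r x y ∉ C} := by
    refine (isOpen_iff (X := P)).2 ⟨?_, ?_⟩
    · intro y y' hyy' hy x hx hxy'
      exact hy x hx (hCl (hr2 x hyy') hxy')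
    · intro D hD hDdir d hd hdN
      have hDne : Nonempty D := hD.to_subtype
      have hcov : K ∩ C ⊆ ⋃ e : D, (fun x => r x e.1) ⁻¹' Cᶜ := by
        intro x hx
        by_contra hx'
        refine hdN x hx ?_
        refine (isClosed_iff.1 hC1).2 (r x '' D) (hD.image _) (dir_image (hr2 x) hDdir) _
          (hr2s x D hD hDdir d hd) ?_
        rintro _ ⟨e, he, rfl⟩
        by_contra hxe
        exact hx' (mem_iUnion.2 ⟨⟨e, he⟩, hxe⟩)
      obtain ⟨e, he⟩ := (hKC K hKm).elim_directed_cover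
        (fun e : D => (fun x => r x e.1) ⁻¹' Cᶜ)
        (fun e => hC1.isOpen_compl.preimage (hrc e.1)) hcov (by
          intro e e'
          obtain ⟨f, hf, hef, he'f⟩ := hDdir e.1 e.2 e'.1 e'.2
          exact ⟨⟨f, hf⟩, fun x hx hxf => hx (hCl (hr2 x hef) hxf),
            fun x hx hxf => hx (hCl (hr2 x he'f) hxf)⟩)
      exact ⟨e.1, e.2, fun x hx => he hx⟩
  have haN : a ∈ {y : P | ∀ x ∈ K ∩ C, r x y ∉ C} := hout
  have haK : a ∈ closure (p '' (K ∩ C)) := by
    refine closure_minimal ?_ isClosed_closure haE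
    rintro _ ⟨x, hx, rfl⟩
    exact image_closure_subset_closure_image hpc ⟨x, hcl K hKm hx, rfl⟩
  obtain ⟨_, hyN, x, hx, rfl⟩ := mem_closure_iff.1 haK _ hN haN
  exact hyN x hx (by rw [hr x]; exact hx.2)

end core

/-- It is enough to find, for a minimal closed set `C`, an element of `C` which is an upper bound
of `C`. -/
theorem wellFiltered_of {X : Type u} [PartialOrder X]
    (h : ∀ 𝒦 : Set (Set X), 𝒦.Nonempty → DirectedOn (· ⊇ ·) 𝒦 →
      (∀ K ∈ 𝒦, @IsCompact X (scott X) K) → ∀ C : Set X, IsMin 𝒦 C → ∃ a ∈ C, ∀ x ∈ C, x ≤ a) :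
    WellFiltered (scott X) := by
  refine ⟨t0, fun 𝒦 hne hdir hK U hU hsub => ?_⟩
  by_contra hcon
  push Not at hcon
  obtain ⟨C, hCU, hC⟩ := exists_min 𝒦 (fun K h => (hK K h).1) Uᶜ
    ((@isClosed_compl_iff X (scott X) _).2 hU) (by
    intro K hKm
    obtain ⟨x, hx, hxU⟩ := not_subset.1 (hcon K hKm)
    exact ⟨x, hx, hxU⟩)
  obtain ⟨a, haC, ha⟩ := h 𝒦 hne hdir (fun K h => (hK K h).1) C hC
  refine hCU haC (hsub (mem_sInter.2 fun K hKm => ?_))
  obtain ⟨x, hx, hxC⟩ := hC.meets K hKm
  exact upper_of_saturated (hK K hKm).2 (ha x hxC) hx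

section pi

variable {I : Type u} {P : I → Type v} [∀ i, PartialOrder (P i)]

theorem eval_sups (i : I) : PreservesSups fun x : ∀ i, P i => x i :=
  fun _ _ _ _ hx => isLUB_pi.1 hx i

theorem pi_wf (hP : ∀ i, WellFiltered (scott (P i))) : WellFiltered (scott (∀ i, P i)) := by
  classical
  refine wellFiltered_of fun 𝒦 hne hdir hK C hC => ?_
  have key : ∀ i, ∃ a : P i, (∀ x ∈ C, x i ≤ a) ∧ ∀ x ∈ C, Function.update x i a ∈ C := by
    intro i
    refine replace (hP i) (p := fun x : ∀ i, P i => x i) (Function.monotone_eval i) (eval_sups i)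
      (r := fun x a => Function.update x i a) (fun x => Function.update_eq_self i x)
      ?_ ?_ ?_ ?_ hne hdir hK hC
    · intro y x x' h j
      by_cases hj : j = i
      · subst hj
        simp
      · simp only [Function.update_of_ne hj]
        exact h j
    · intro y D hD hdirD x hx
      rw [isLUB_pi] at hx ⊢
      intro j
      rw [image_image]
      by_cases hj : j = i
      · subst hj
        simp only [Function.update_self]
        rw [hD.image_const]
        exact isLUB_singleton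
      · simp only [Function.update_of_ne hj]
        exact hx j
    · intro x a b h j
      by_cases hj : j = i
      · subst hj
        simpa using h
      · simp only [Function.update_of_ne hj]
        exact le_rfl
    · intro x D hD hdirD a ha
      rw [isLUB_pi]
      intro j
      rw [image_image]
      by_cases hj : j = i
      · subst hj
        simp only [Function.update_self]
        rwa [image_id']
      · simp only [Function.update_of_ne hj]
        rw [hD.image_const]
        exact isLUB_singleton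
  choose a ha1 ha2 using key
  refine ⟨a, ?_, fun x hx i => ha1 i x hx⟩
  obtain ⟨K, hKm⟩ := hne
  obtain ⟨c, -, hc⟩ := hC.meets K hKm
  have hF : ∀ F : Finset I, (fun i => if i ∈ F then a i else c i) ∈ C := by
    intro F
    induction F using Finset.induction_on with
    | empty => simpa using hc
    | @insert i F hi ih =>
      have h1 := ha2 i _ ih
      convert h1 using 1
      ext j
      by_cases hj : j = i
      · subst hj
        simp
      · simp [hj]
  have hmono : Monotone fun F : Finset I => fun i => if i ∈ F then a i else c i := by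
    intro F G hFG i
    by_cases h1 : i ∈ F
    · simp [h1, hFG h1]
    · by_cases h2 : i ∈ G
      · simp only [h1, h2, if_false, if_true]
        exact ha1 i c hc
      · simp [h1, h2]
  refine (isClosed_iff.1 hC.closed).2 (range fun F : Finset I => fun i => if i ∈ F then a i else c i)
    (range_nonempty _) ?_ a ?_ ?_
  · rintro _ ⟨F, rfl⟩ _ ⟨G, rfl⟩
    exact ⟨_, ⟨F ∪ G, rfl⟩, hmono Finset.subset_union_left, hmono Finset.subset_union_right⟩
  · constructor
    · rintro _ ⟨F, rfl⟩ i
      by_cases h1 : i ∈ F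
      · simp [h1]
      · simp only [h1, if_false]
        exact ha1 i c hc
    · intro b hb i
      have := hb ⟨{i}, rfl⟩ i
      simpa using this
  · rintro _ ⟨F, rfl⟩
    exact hF F

theorem pi_dcpo (h : ∀ i, IsDcpo (P i)) : IsDcpo (∀ i, P i) := by
  intro D hD hdir
  have : ∀ i, ∃ x : P i, IsLUB ((fun f : ∀ i, P i => f i) '' D) x := fun i =>
    h i _ (hD.image _) (dir_image (Function.monotone_eval i) hdir)
  choose x hx using this
  exact ⟨x, isLUB_pi.2 hx⟩

end pi

section prod

variable {P : Type u} {Q : Type v} [PartialOrder P] [PartialOrder Q]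

theorem prod_dcpo (hP : IsDcpo P) (hQ : IsDcpo Q) : IsDcpo (P × Q) := by
  intro D hD hdir
  obtain ⟨x, hx⟩ := hP _ (hD.image Prod.fst) (dir_image monotone_fst hdir)
  obtain ⟨y, hy⟩ := hQ _ (hD.image Prod.snd) (dir_image monotone_snd hdir)
  exact ⟨(x, y), isLUB_prod.2 ⟨hx, hy⟩⟩

theorem prod_wf (hP : WellFiltered (scott P)) (hQ : WellFiltered (scott Q)) :
    WellFiltered (scott (P × Q)) := by
  refine wellFiltered_of fun 𝒦 hne hdir hK C hC => ?_
  obtain ⟨a, ha1, ha2⟩ := replace hP (p := fun x : P × Q => x.1) monotone_fst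
    (fun D _ _ x hx => (isLUB_prod.1 hx).1) (r := fun x a => (a, x.2)) (fun x => rfl)
    (fun y x x' h => ⟨le_rfl, h.2⟩)
    (fun y D hD _ x hx => by
      rw [isLUB_prod, image_image, image_image]
      refine ⟨?_, (isLUB_prod.1 hx).2⟩
      rw [hD.image_const]
      exact isLUB_singleton)
    (fun x a b h => ⟨h, le_rfl⟩)
    (fun x D hD _ a ha => by
      rw [isLUB_prod, image_image, image_image]
      refine ⟨by rwa [image_id'], ?_⟩
      rw [hD.image_const]
      exact isLUB_singleton) hne hdir hK hC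
  obtain ⟨b, hb1, hb2⟩ := replace hQ (p := fun x : P × Q => x.2) monotone_snd
    (fun D _ _ x hx => (isLUB_prod.1 hx).2) (r := fun x b => (x.1, b)) (fun x => rfl)
    (fun y x x' h => ⟨h.1, le_rfl⟩)
    (fun y D hD _ x hx => by
      rw [isLUB_prod, image_image, image_image]
      refine ⟨(isLUB_prod.1 hx).1, ?_⟩
      rw [hD.image_const]
      exact isLUB_singleton)
    (fun x a b h => ⟨le_rfl, h⟩)
    (fun x D hD _ a ha => by
      rw [isLUB_prod, image_image, image_image]
      refine ⟨?_, by rwa [image_id']⟩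
      rw [hD.image_const]
      exact isLUB_singleton) hne hdir hK hC
  obtain ⟨K, hKm⟩ := hne
  obtain ⟨c, -, hc⟩ := hC.meets K hKm
  exact ⟨(a, b), hb2 _ (ha2 c hc), fun x hx => ⟨ha1 x hx, hb1 x hx⟩⟩

end prod

/-- **Products of Scott well-filtered dcpos.** If `P` and `Q` are dcpos with well-filtered Scott
topologies, then the Scott topology of the dcpo `P × Q` is well-filtered; and the same is true for
the product of an arbitrary family of dcpos. -/
theorem result :
    (∀ (P : Type u) (Q : Type v) [PartialOrder P] [PartialOrder Q], IsDcpo P → IsDcpo Q →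
      WellFiltered (scott P) → WellFiltered (scott Q) →
        IsDcpo (P × Q) ∧ WellFiltered (scott (P × Q))) ∧
    (∀ (I : Type w) (P : I → Type u) [∀ i, PartialOrder (P i)], (∀ i, IsDcpo (P i)) →
      (∀ i, WellFiltered (scott (P i))) →
        IsDcpo (∀ i, P i) ∧ WellFiltered (scott (∀ i, P i))) :=
  ⟨fun _ _ _ _ h1 h2 h3 h4 => ⟨prod_dcpo h1 h2, prod_wf h3 h4⟩,
    fun _ _ _ h1 h2 => ⟨pi_dcpo h1, pi_wf h2⟩⟩

end Pool.Agent.Results.MP_70096d_gt.ScottProducts
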